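import Mathlib.Algebra.Group.ForwardDiff
import Mathlib.Algebra.Order.Ring.Star
import Mathlib.Analysis.Convex.SpecificFunctions.Basic
import Mathlib.Algebra.Order.Chebyshev
import Mathlib.Algebra.Order.Star.Real
import Mathlib.Analysis.CStarAlgebra.Classes
import Mathlib.Analysis.Real.Pi.Bounds
import Mathlib.Tactic.Algebra.Basic

/-! Exponential sums: Kusmin-Landau, the second difference test, Weyl differencing and the higher
difference tests of van der Corput. -/

namespace Pool.Agent.Lib.helper44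

open Complex Finset

/-- The unit complex number of argument `x`. -/
noncomputable def ee (x : ℝ) : ℂ := exp (x * I)

@[simp] theorem norm_ee (x : ℝ) : ‖ee x‖ = 1 := norm_exp_ofReal_mul_I x

theorem ee_add (x y : ℝ) : ee (x + y) = ee x * ee y := by
  simp only [ee, ← exp_add]; congr 1; push_cast; ring

theorem conj_ee (x : ℝ) : (starRingEnd ℂ) (ee x) = ee (-x) := by
  simp [ee, ← exp_conj]

theorem ee_int (k : ℤ) : ee (2 * Real.pi * k) = 1 := by
  rw [ee, ← exp_int_mul_two_pi_mul_I k]; congr 1; push_cast; ring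

theorem norm_sum_ee_neg (f : ℕ → ℝ) (M : ℕ) :
    ‖∑ n ∈ range M, ee (-f n)‖ = ‖∑ n ∈ range M, ee (f n)‖ := by
  rw [← Complex.norm_conj, map_sum]
  simp [conj_ee]

theorem norm_sum_ee_le (f : ℕ → ℝ) (M : ℕ) : ‖∑ n ∈ range M, ee (f n)‖ ≤ M :=
  (norm_sum_le _ _).trans (by simp)

theorem sin_half_ge {θ δ : ℝ} (h1 : θ ≤ δ) (h2 : δ ≤ 2 * Real.pi - θ) (hθ : 0 < θ) :
    θ / Real.pi ≤ Real.sin (δ / 2) := by
  have hp := Real.pi_pos
  have key : ∀ x : ℝ, θ / 2 ≤ x → x ≤ Real.pi / 2 → θ / Real.pi ≤ Real.sin x := by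
    intro x a b
    refine le_trans ?_ (Real.mul_le_sin (by linarith) b)
    rw [div_mul_eq_mul_div]
    gcongr
    linarith
  rcases le_total (δ / 2) (Real.pi / 2) with h | h
  · exact key _ (by linarith) h
  · rw [← Real.sin_pi_sub]; exact key _ (by linarith) (by linarith)

theorem cot_identity {δ : ℝ} (h : Real.sin (δ / 2) ≠ 0) :
    (-1 / 2 - (Real.cos (δ / 2) / Real.sin (δ / 2) / 2 : ℝ) * I) * (ee δ - 1) = 1 := by
  have e : ee δ = (Real.cos (δ / 2) + Real.sin (δ / 2) * I) ^ 2 := by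
    rw [ee, ofReal_cos, ofReal_sin, ← exp_mul_I, ← exp_nat_mul]; congr 1; push_cast; ring
  have h1 : (Real.sin (δ / 2) : ℂ) ≠ 0 := by exact_mod_cast h
  have h2 : (Real.sin (δ / 2) : ℂ) ^ 2 + (Real.cos (δ / 2) : ℂ) ^ 2 = 1 := by
    exact_mod_cast Real.sin_sq_add_cos_sq (δ / 2)
  rw [e, ofReal_div, ofReal_div]
  generalize (Real.sin (δ / 2) : ℂ) = s at *
  generalize (Real.cos (δ / 2) : ℂ) = c at *
  have h3 := I_mul_I
  push_cast
  field_simp
  linear_combination (-(s + c * I) + 2 * s) * h2 + (-s ^ 3 - s ^ 2 * c * I - 2 * s * c ^ 2) * h3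

/-- The Kusmin-Landau inequality. -/
theorem kusmin_landau {z : ℕ → ℂ} {δ : ℕ → ℝ} {θ : ℝ} (hθ : 0 < θ) {M : ℕ}
    (hz : ∀ n, ‖z n‖ = 1) (hs : ∀ n, z (n + 1) = z n * ee (δ n))
    (hδ : ∀ n < M, θ ≤ δ n ∧ δ n ≤ 2 * Real.pi - θ) (hm : ∀ n, n + 1 < M → δ n ≤ δ (n + 1)) :
    ‖∑ n ∈ range M, z n‖ ≤ 1 + 2 * Real.pi / θ := by
  have hp := Real.pi_pos
  rcases M with _ | M
  · simp; positivity
  set κ : ℕ → ℝ := fun n => Real.cos (δ n / 2) / Real.sin (δ n / 2) / 2 with hκ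
  set c : ℕ → ℂ := fun n => -1 / 2 - κ n * I with hc
  have hsin : ∀ n < M + 1, θ / Real.pi ≤ Real.sin (δ n / 2) := fun n hn =>
    sin_half_ge (hδ n hn).1 (hδ n hn).2 hθ
  have hsin0 : ∀ n < M + 1, 0 < Real.sin (δ n / 2) := fun n hn =>
    lt_of_lt_of_le (by positivity) (hsin n hn)
  have h1 : ∀ n < M + 1, z n = c n * (z (n + 1) - z n) := by
    intro n hn
    rw [hs]
    linear_combination (-z n) * cot_identity (hsin0 n hn).ne'
  have h2 : ∀ n < M + 1, |κ n| ≤ Real.pi / θ / 2 := by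
    intro n hn
    simp only [hκ]
    rw [abs_div, abs_div, abs_two, abs_of_pos (hsin0 n hn)]
    gcongr ?_ / 2
    calc _ ≤ 1 / (θ / Real.pi) := by
          gcongr
          · exact Real.abs_cos_le_one _
          · exact hsin n hn
      _ = _ := by field_simp
  have h3 : ∀ n < M + 1, ‖c n‖ ≤ 1 / 2 + Real.pi / θ / 2 := by
    intro n hn
    refine (norm_sub_le _ _).trans ?_
    have := h2 n hn
    simp only [norm_div, norm_neg, norm_one, Complex.norm_ofNat, norm_mul, Complex.norm_real,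
      Real.norm_eq_abs, norm_I, mul_one]
    linarith
  have h4 : ∀ n, n + 1 < M + 1 → κ (n + 1) ≤ κ n := by
    intro n hn
    simp only [hκ]
    gcongr ?_ / 2
    rw [div_le_div_iff₀ (hsin0 _ hn) (hsin0 n (by omega))]
    have a1 := hm n hn
    have a2 := Real.sin_nonneg_of_nonneg_of_le_pi (x := δ (n + 1) / 2 - δ n / 2) (by linarith)
      (by linarith [(hδ _ hn).2, (hδ n (by omega)).1])
    rw [Real.sin_sub] at a2
    linarith
  have key : ∀ m, m < M + 1 →
      ‖∑ n ∈ range (m + 1), z n - c m * z (m + 1) + c 0 * z 0‖ ≤ κ 0 - κ m := by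
    intro m
    induction m with
    | zero =>
      intro h
      have := h1 0 h
      rw [sum_range_one, show z 0 - c 0 * z (0 + 1) + c 0 * z 0 = 0 by linear_combination this]
      simp
    | succ m ih =>
      intro h
      have e : ∑ n ∈ range (m + 1 + 1), z n - c (m + 1) * z (m + 1 + 1) + c 0 * z 0 =
          (∑ n ∈ range (m + 1), z n - c m * z (m + 1) + c 0 * z 0) +
            ((κ (m + 1) - κ m : ℝ) * I) * z (m + 1) := by
        rw [sum_range_succ _ (m + 1)]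
        have := h1 (m + 1) h
        simp only [hc] at this ⊢
        push_cast
        linear_combination this
      rw [e]
      refine (norm_add_le _ _).trans ?_
      rw [norm_mul, norm_mul, hz, norm_I, Complex.norm_real, Real.norm_eq_abs,
        abs_of_nonpos (by linarith [h4 m h])]
      linarith [ih (by omega)]
  have k1 := key M (by omega)
  have e : ∑ n ∈ range (M + 1), z n = (∑ n ∈ range (M + 1), z n - c M * z (M + 1) + c 0 * z 0) +
      (c M * z (M + 1) - c 0 * z 0) := by ring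
  rw [e]
  have k2 := norm_sub_le (c M * z (M + 1)) (c 0 * z 0)
  rw [norm_mul, norm_mul, hz, hz] at k2
  have k3 := abs_le.1 (h2 0 (by omega))
  have k4 := abs_le.1 (h2 M (by omega))
  have k5 := h3 0 (by omega)
  have k6 := h3 M (by omega)
  refine (norm_add_le _ _).trans ?_
  have : 2 * Real.pi / θ = 4 * (Real.pi / θ / 2) := by ring
  linarith

theorem kusmin_landau' {f : ℕ → ℝ} {θ : ℝ} (hθ : 0 < θ) {M : ℕ} (k : ℤ)
    (hδ : ∀ n < M, 2 * Real.pi * k + θ ≤ f (n + 1) - f n ∧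
      f (n + 1) - f n ≤ 2 * Real.pi * (k + 1) - θ)
    (hm : ∀ n, n + 1 < M → f (n + 1) - f n ≤ f (n + 1 + 1) - f (n + 1)) :
    ‖∑ n ∈ range M, ee (f n)‖ ≤ 1 + 2 * Real.pi / θ :=
  kusmin_landau (δ := fun n => f (n + 1) - f n - 2 * Real.pi * k) hθ (fun _ => norm_ee _)
    (fun n => by rw [← mul_one (ee (f n) * _), ← ee_int k, ← ee_add, ← ee_add]; congr 1; ring)
    (fun n hn => ⟨by linarith [(hδ n hn).1], by linarith [(hδ n hn).2]⟩)
    (fun n hn => by linarith [hm n hn])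

theorem incr_le {δ : ℕ → ℝ} {lam : ℝ} {M : ℕ} (h : ∀ n, n + 1 < M → δ n + lam ≤ δ (n + 1))
    (n j : ℕ) (hj : n + j < M) : δ n + j * lam ≤ δ (n + j) := by
  induction j with
  | zero => simp
  | succ j ih =>
    have h1 := ih (by omega)
    have h2 := h (n + j) hj
    rw [← add_assoc]
    push_cast
    linarith

theorem one_period {f : ℕ → ℝ} {lam θ : ℝ} (hl : 0 < lam) (hθ : 0 < θ) {M : ℕ} (k : ℤ)
    (hδ : ∀ n < M, 2 * Real.pi * k ≤ f (n + 1) - f n ∧ f (n + 1) - f n ≤ 2 * Real.pi * (k + 1))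
    (hm : ∀ n, n + 1 < M → f (n + 1) - f n + lam ≤ f (n + 1 + 1) - f (n + 1)) :
    ‖∑ n ∈ range M, ee (f n)‖ ≤ 3 + 2 * Real.pi / θ + 2 * (θ / lam) := by
  have hp := Real.pi_pos
  set p := ⌈θ / lam⌉₊ with hpdef
  have p1 : θ ≤ p * lam := by rw [← div_le_iff₀ hl]; exact Nat.le_ceil _
  have p2 : (p : ℝ) ≤ θ / lam + 1 := (Nat.ceil_lt_add_one (by positivity)).le
  have q0 : 0 ≤ 2 * Real.pi / θ := by positivity
  rcases le_total M (p + p) with h | h
  · have : (M : ℝ) ≤ p + p := by exact_mod_cast h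
    linarith [norm_sum_ee_le f M]
  obtain ⟨m, rfl⟩ : ∃ m, M = p + m + p := ⟨M - (p + p), by omega⟩
  rw [sum_range_add, sum_range_add]
  have a1 := norm_sum_ee_le f p
  have a2 := norm_sum_ee_le (fun n => f (p + m + n)) p
  have a3 := kusmin_landau' (f := fun n => f (p + n)) (M := m) hθ k (fun n hn => by
    have b1 := incr_le (δ := fun n => f (n + 1) - f n) hm n p (by omega)
    have b2 := incr_le (δ := fun n => f (n + 1) - f n) hm (p + n) p (by omega)
    have b3 := (hδ n (by omega)).1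
    have b4 := (hδ (p + n + p) (by omega)).2
    simp only [add_comm n p] at b1
    simp only [← add_assoc]
    constructor <;> linarith) (fun n hn => by
    simp only [← add_assoc]
    linarith [hm (p + n) (by omega)])
  refine (norm_add_le _ _).trans ?_
  linarith [norm_add_le (∑ n ∈ range p, ee (f n)) (∑ n ∈ range m, ee (f (p + n)))]

theorem many_periods {lam θ : ℝ} (hl : 0 < lam) (hθ : 0 < θ) (k : ℤ) (j : ℕ) :
    ∀ (f : ℕ → ℝ) (M : ℕ), (∀ n < M, 2 * Real.pi * k ≤ f (n + 1) - f n ∧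
      f (n + 1) - f n ≤ 2 * Real.pi * (k + j + 1)) →
      (∀ n, n + 1 < M → f (n + 1) - f n + lam ≤ f (n + 1 + 1) - f (n + 1)) →
      ‖∑ n ∈ range M, ee (f n)‖ ≤ (j + 1) * (3 + 2 * Real.pi / θ + 2 * (θ / lam)) := by
  induction j with
  | zero =>
    intro f M hδ hm
    simpa using one_period hl hθ k (by simpa using hδ) hm
  | succ j ih =>
    intro f M hδ hm
    classical
    have hex : ∃ m, M ≤ m ∨ 2 * Real.pi * (k + j + 1) < f (m + 1) - f m := ⟨M, Or.inl le_rfl⟩
    have m1 : Nat.find hex ≤ M := Nat.find_min' hex (Or.inl le_rfl)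
    have m2 := Nat.find_spec hex
    have m3 := fun n => Nat.find_min hex (m := n)
    generalize Nat.find hex = m at m1 m2 m3
    obtain ⟨r, rfl⟩ := Nat.exists_eq_add_of_le m1
    rw [sum_range_add]
    have a1 := ih f m (fun n hn => ⟨(hδ n (by omega)).1,
      le_of_not_gt fun h => m3 n hn (Or.inr h)⟩) (fun n hn => hm n (by omega))
    have a2 := one_period (f := fun n => f (m + n)) (M := r) hl hθ (k + j + 1) (fun n hn => by
      have b1 := incr_le (δ := fun n => f (n + 1) - f n) hm m n (by omega)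
      have b2 := m2.resolve_left (by omega)
      have b3 := (hδ (m + n) (by omega)).2
      have b4 : 0 ≤ n * lam := by positivity
      simp only [← add_assoc]
      push_cast at b3 ⊢
      constructor <;> linarith) (fun n hn => by
      simp only [← add_assoc]
      exact hm (m + n) (by omega))
    refine (norm_add_le _ _).trans ?_
    push_cast
    linarith

/-- The `k`-th difference test with exponents `p`, `q`. -/
def Test (k : ℕ) (p q h : ℝ) : Prop := ∃ C : ℝ, 1 ≤ C ∧ ∀ (f : ℕ → ℝ) (M : ℕ) (lam : ℝ),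
  0 < lam → (∀ n < M, lam ≤ (fwdDiff 1)^[k] f n ∧ (fwdDiff 1)^[k] f n ≤ h * lam) →
    ‖∑ n ∈ range M, ee (f n)‖ ≤ C * (M * lam ^ p + (M : ℝ) ^ q * lam ^ (-p))

theorem test_two {h : ℝ} (hh : 1 ≤ h) : Test 2 (1 / 2) 0 h := by
  refine ⟨24 * h, by linarith, fun f M lam hl hb => ?_⟩
  have hp := Real.pi_gt_three
  have hp' := Real.pi_lt_d2
  simp only [Function.iterate_succ, Function.iterate_zero, Function.comp, id, fwdDiff] at hb
  set θ := Real.sqrt lam with hθ
  have hθ0 : 0 < θ := Real.sqrt_pos.2 hl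
  have hθ2 : lam = θ * θ := (Real.mul_self_sqrt hl.le).symm
  rw [Real.rpow_neg hl.le, ← Real.sqrt_eq_rpow, Real.rpow_zero, one_mul, ← hθ]
  have hM : (0 : ℝ) ≤ M := M.cast_nonneg
  have hi : 0 < θ⁻¹ := by positivity
  rcases le_total 1 θ with h1 | h1
  · have a1 : M * 1 ≤ M * θ := by gcongr
    nlinarith [norm_sum_ee_le f M]
  set k := ⌊(f 1 - f 0) / (2 * Real.pi)⌋ with hk
  have k1 : 2 * Real.pi * k ≤ f 1 - f 0 := by
    rw [mul_comm, ← le_div_iff₀ (by linarith)]; exact Int.floor_le _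
  have k2 : f 1 - f 0 ≤ 2 * Real.pi * (k + 1) := by
    rw [mul_comm, ← div_le_iff₀ (by linarith)]; exact (Int.lt_floor_add_one _).le
  set j := ⌈h * lam * M⌉₊ with hj
  have j1 : h * lam * M ≤ j := Nat.le_ceil _
  have j2 : (j : ℝ) ≤ h * lam * M + 1 := (Nat.ceil_lt_add_one (by positivity)).le
  have a1 := many_periods hl hθ0 k j f M (fun n hn => by
    have b1 := incr_le (δ := fun n => f (n + 1) - f n) (lam := lam) (M := M)
      (fun n hn => by linarith [(hb n (by omega)).1]) 0 n (by omega)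
    have b2 := incr_le (δ := fun n => -(f (n + 1) - f n)) (lam := -(h * lam)) (M := M)
      (fun n hn => by linarith [(hb n (by omega)).2]) 0 n (by omega)
    have b3 : (n : ℝ) ≤ M := by exact_mod_cast hn.le
    have b4 : n * (h * lam) ≤ M * (h * lam) := by gcongr
    have b5 : 0 ≤ n * lam := by positivity
    have b6 : (0 : ℝ) ≤ j := j.cast_nonneg
    simp only [zero_add] at b1 b2
    constructor
    · linarith
    · nlinarith) (fun n hn => by linarith [(hb n (by omega)).1])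
  have a2 : 3 + 2 * Real.pi / θ + 2 * (θ / lam) ≤ 12 * θ⁻¹ := by
    have b1 : θ / lam = θ⁻¹ := by rw [hθ2]; field_simp
    have b2 : 1 ≤ θ⁻¹ := (one_le_inv₀ hθ0).2 h1
    rw [b1, div_eq_mul_inv]
    nlinarith
  have a3 : lam * θ⁻¹ = θ := by rw [hθ2]; field_simp
  calc _ ≤ (h * lam * M + 2) * (12 * θ⁻¹) := a1.trans (mul_le_mul (by linarith) a2
        (by positivity) (by positivity))
    _ = 12 * h * (M * θ) + 24 * θ⁻¹ := by rw [← a3]; field_simp; rw [hθ2]; ring
    _ ≤ _ := by nlinarith [mul_nonneg hM hθ0.le]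

theorem sum_shift {z : ℕ → ℂ} {M H : ℕ} (h : ℕ) (hh : h ≤ H) (g : ℕ → ℂ)
    (hg : ∀ n, g n = if H ≤ n ∧ n < H + M then z (n - H) else 0) :
    ∑ m ∈ range (M + H), g (m + h) = ∑ n ∈ range M, z n := by
  simp only [hg]
  rw [← sum_filter]
  refine sum_bij' (fun m _ => m + h - H) (fun n _ => n + H - h) ?_ ?_ ?_ ?_ ?_ <;>
    simp only [mem_filter, mem_range] <;> intros <;> first | omega | trivial

/-- The Weyl-van der Corput inequality. -/
theorem weyl {z : ℕ → ℂ} (hz : ∀ n, ‖z n‖ ≤ 1) (M H : ℕ) {B : ℕ → ℝ}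
    (hB : ∀ r, 0 < r → r < H →
      ‖∑ n ∈ range (M - r), z (n + r) * (starRingEnd ℂ) (z n)‖ ≤ B r) (hB0 : B 0 = M)
    (hB1 : ∀ r, 0 ≤ B r) :
    (H : ℝ) ^ 2 * ‖∑ n ∈ range M, z n‖ ^ 2 ≤ (M + H) * (2 * H * ∑ r ∈ range H, B r) := by
  set g : ℕ → ℂ := fun n => if H ≤ n ∧ n < H + M then z (n - H) else 0 with hg
  have h1 : (H : ℂ) * ∑ n ∈ range M, z n = ∑ m ∈ range (M + H), ∑ h ∈ range H, g (m + h) := by
    rw [sum_comm, sum_congr rfl fun h hh => sum_shift h (mem_range.1 hh).le g (fun _ => rfl)]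
    simp
  have h2 : ∀ h r : ℕ, h + r < H →
      ‖∑ m ∈ range (M + H), g (m + (h + r)) * (starRingEnd ℂ) (g (m + h))‖ ≤ B r := by
    intro h r hr
    have e : ∑ m ∈ range (M + H), g (m + (h + r)) * (starRingEnd ℂ) (g (m + h)) =
        ∑ n ∈ range (M - r), z (n + r) * (starRingEnd ℂ) (z n) := by
      rw [← sum_filter_of_ne (p := fun m => H ≤ m + h ∧ m + (h + r) < H + M) (fun m _ hm => by
        by_contra hc
        apply hm
        simp only [hg]
        split_ifs <;> first | omega | simp)]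
      refine sum_bij' (fun m _ => m + h - H) (fun n _ => n + H - h) ?_ ?_ ?_ ?_ ?_ <;>
        simp only [mem_filter, mem_range] <;> intros <;> try omega
      simp only [hg]
      rw [if_pos (by omega), if_pos (by omega)]
      congr 2
      omega
    rw [e]
    rcases Nat.eq_zero_or_pos r with rfl | hr0
    · rw [hB0]
      refine (norm_sum_le _ _).trans ((sum_le_card_nsmul _ _ 1 fun n _ => ?_).trans (by simp))
      rw [norm_mul, Complex.norm_conj]
      exact mul_le_one₀ (hz _) (norm_nonneg _) (hz _)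
    · exact hB r hr0 (by omega)
  have h3 : ∀ h ∈ range H, ∀ h' ∈ range H,
      ‖∑ m ∈ range (M + H), g (m + h) * (starRingEnd ℂ) (g (m + h'))‖ ≤
        (if h' ≤ h then B (h - h') else 0) + if h ≤ h' then B (h' - h) else 0 := by
    intro h hh h' hh'
    rw [mem_range] at hh hh'
    rcases le_total h' h with a | a
    · obtain ⟨r, rfl⟩ := Nat.exists_eq_add_of_le a
      rw [if_pos a, Nat.add_sub_cancel_left]
      refine (h2 h' r hh).trans (le_add_of_nonneg_right ?_)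
      split_ifs <;> simp [hB1]
    · obtain ⟨r, rfl⟩ := Nat.exists_eq_add_of_le a
      rw [if_pos a, Nat.add_sub_cancel_left, ← Complex.norm_conj, map_sum]
      simp only [map_mul, conj_conj, mul_comm ((starRingEnd ℂ) _)]
      refine (h2 h r hh').trans (le_add_of_nonneg_left ?_)
      split_ifs <;> simp [hB1]
  have h4 : ∀ h ∈ range H, ∑ h' ∈ range H, (if h' ≤ h then B (h - h') else 0) ≤
      ∑ r ∈ range H, B r := by
    intro h hh
    rw [mem_range] at hh
    rw [← sum_filter, show (range H).filter (· ≤ h) = range (h + 1) by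
      ext; simp only [mem_filter, mem_range]; omega]
    rw [← sum_range_reflect]
    refine le_trans (le_of_eq (sum_congr rfl fun j hj => ?_))
      (sum_le_sum_of_subset_of_nonneg (range_mono (show h + 1 ≤ H by omega)) fun r _ _ => hB1 r)
    rw [mem_range] at hj
    congr 1
    omega
  have h5 : ∑ m ∈ range (M + H), ‖∑ h ∈ range H, g (m + h)‖ ^ 2 ≤
      2 * H * ∑ r ∈ range H, B r := by
    have e : ((∑ m ∈ range (M + H), ‖∑ h ∈ range H, g (m + h)‖ ^ 2 : ℝ) : ℂ) =
        ∑ h ∈ range H, ∑ h' ∈ range H,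
          ∑ m ∈ range (M + H), g (m + h) * (starRingEnd ℂ) (g (m + h')) := by
      push_cast
      simp only [← mul_conj', map_sum, sum_mul_sum]
      rw [sum_comm]
      exact sum_congr rfl fun _ _ => sum_comm
    calc _ ≤ ‖((∑ m ∈ range (M + H), ‖∑ h ∈ range H, g (m + h)‖ ^ 2 : ℝ) : ℂ)‖ := by
          rw [Complex.norm_real]; exact le_abs_self _
      _ ≤ ∑ h ∈ range H, ∑ h' ∈ range H,
          ((if h' ≤ h then B (h - h') else 0) + if h ≤ h' then B (h' - h) else 0) := by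
          rw [e]
          exact norm_sum_le_of_le _ fun h hh => norm_sum_le_of_le _ fun h' hh' => h3 h hh h' hh'
      _ = ∑ h ∈ range H, ∑ h' ∈ range H, (if h' ≤ h then B (h - h') else 0) +
          ∑ h ∈ range H, ∑ h' ∈ range H, (if h' ≤ h then B (h - h') else 0) := by
          simp only [sum_add_distrib]
          rw [sum_comm (f := fun h h' => if h ≤ h' then B (h' - h) else 0)]
      _ ≤ _ := by
          have := sum_le_card_nsmul _ _ _ h4
          rw [card_range, nsmul_eq_mul] at this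
          linarith
  calc _ = ‖(H : ℂ) * ∑ n ∈ range M, z n‖ ^ 2 := by rw [norm_mul, mul_pow, Complex.norm_natCast]
    _ ≤ (∑ m ∈ range (M + H), ‖∑ h ∈ range H, g (m + h)‖) ^ 2 := by
        rw [h1]; gcongr; exact norm_sum_le _ _
    _ ≤ (M + H) * ∑ m ∈ range (M + H), ‖∑ h ∈ range H, g (m + h)‖ ^ 2 := by
        simpa using sq_sum_le_card_mul_sum_sq (s := range (M + H))
          (f := fun m => ‖∑ h ∈ range H, g (m + h)‖)
    _ ≤ _ := by gcongr

theorem iter_shift (k r : ℕ) (f : ℕ → ℝ) (n : ℕ) : (fwdDiff 1)^[k] (fwdDiff r f) n =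
    ∑ j ∈ range r, (fwdDiff 1)^[k + 1] f (n + j) := by
  have hc : Function.Commute (fwdDiff (G := ℝ) (1 : ℕ)) (fwdDiff r) := fun g => by
    funext m
    simp only [fwdDiff, add_right_comm m 1 r]
    ring
  rw [hc.iterate_left k f, Function.iterate_succ_apply']
  generalize (fwdDiff 1)^[k] f = g
  simp only [fwdDiff, add_assoc]
  rw [sum_range_sub fun j => g (n + j), add_zero]

theorem sum_rpow_neg_le {p : ℝ} (hp0 : 0 ≤ p) (hp : p ≤ 1 / 2) (H : ℕ) :
    ∑ r ∈ range H, ((r + 1 : ℕ) : ℝ) ^ (-p) ≤ 2 * (H : ℝ) ^ (1 - p) := by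
  induction H with
  | zero => simp; positivity
  | succ H ih =>
    rw [sum_range_succ]
    have h0 : (0 : ℝ) < (H + 1 : ℕ) := by positivity
    have h1 : (H : ℝ) = (H + 1 : ℕ) * (1 + -(1 / (H + 1 : ℕ))) := by
      field_simp; push_cast; ring
    have h2 : 1 / ((H + 1 : ℕ) : ℝ) ≤ 1 := by
      rw [div_le_one h0]; exact_mod_cast Nat.succ_pos H
    have h3 := rpow_one_add_le_one_add_mul_self (s := -(1 / (H + 1 : ℕ))) (by linarith)
      (p := 1 - p) (by linarith) (by linarith)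
    have h4 : ((H + 1 : ℕ) : ℝ) ^ (1 - p) * (1 / (H + 1 : ℕ)) = ((H + 1 : ℕ) : ℝ) ^ (-p) := by
      rw [sub_eq_add_neg, Real.rpow_add h0, Real.rpow_one]; field_simp
    have h5 : (H : ℝ) ^ (1 - p) ≤ ((H + 1 : ℕ) : ℝ) ^ (1 - p) *
        (1 + (1 - p) * -(1 / (H + 1 : ℕ))) := by
      conv_lhs => rw [h1, Real.mul_rpow h0.le (by linarith)]
      gcongr
    have h6 : 0 ≤ ((H + 1 : ℕ) : ℝ) ^ (-p) := by positivity
    nlinarith

theorem Test.step {k : ℕ} {p q h : ℝ} (hp0 : 0 < p) (hp : p ≤ 1 / 2) (hq : 0 ≤ q)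
    (T : Test k p q h) : Test (k + 1) (p / (2 * (1 + p))) ((1 + q) / 2) h := by
  obtain ⟨C, hC, hT⟩ := T
  refine ⟨8 * C, by linarith, fun f M lam hl hb => ?_⟩
  set p' := p / (2 * (1 + p)) with hp'
  have hp'0 : 0 < p' := by positivity
  set x := lam ^ (-p') with hx
  have hx0 : 0 < x := by positivity
  have hxi : lam ^ p' = x⁻¹ := by rw [hx, Real.rpow_neg hl.le, inv_inv]
  rw [hxi]
  have hS := norm_sum_ee_le f M
  have hM : (0 : ℝ) ≤ M := M.cast_nonneg
  set y := (M : ℝ) ^ ((1 + q) / 2) with hy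
  have hy0 : 0 ≤ y := by positivity
  have t1 : 0 ≤ M * x⁻¹ := by positivity
  have t2 : 0 ≤ y * x := by positivity
  rcases le_total x 1 with h1 | h1
  · have : M * 1 ≤ M * x⁻¹ := by gcongr; exact (one_le_inv₀ hx0).2 h1
    nlinarith
  rcases Nat.eq_zero_or_pos M with rfl | hM0
  · simp; positivity
  have hM1 : (1 : ℝ) ≤ M := by exact_mod_cast hM0
  have hy2 : y ^ 2 = M * (M : ℝ) ^ q := by
    rw [hy, ← Real.rpow_natCast, ← Real.rpow_mul hM, ← Real.rpow_one_add' hM (by positivity)]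
    congr 1; push_cast; ring
  have hMq : 1 ≤ (M : ℝ) ^ q := Real.one_le_rpow hM1 hq
  rcases le_total (M : ℝ) (x ^ 2) with h2 | h2
  · have : (M : ℝ) ≤ y * x := by
      apply le_of_pow_le_pow_left₀ two_ne_zero t2
      rw [mul_pow, hy2]
      calc (M : ℝ) ^ 2 = M * 1 * M := by ring
        _ ≤ _ := by gcongr
    nlinarith
  set H := ⌈x ^ 2⌉₊ with hH
  have H1 : x ^ 2 ≤ H := Nat.le_ceil _
  have H2 : (H : ℝ) ≤ 2 * x ^ 2 := by nlinarith [Nat.ceil_lt_add_one (sq_nonneg x)]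
  have H3 : (H : ℝ) ≤ M := by exact_mod_cast Nat.ceil_le.2 h2
  have H0 : (0 : ℝ) < H := by nlinarith
  have e1 : (x ^ 2 * lam) ^ p = x⁻¹ ^ 2 := by
    rw [← hxi, hx, ← Real.rpow_natCast, ← Real.rpow_natCast, ← Real.rpow_mul hl.le,
      ← Real.rpow_mul hl.le, ← Real.rpow_add_one hl.ne', ← Real.rpow_mul hl.le]
    congr 1
    rw [hp']; push_cast; field_simp; ring
  have hw := weyl (z := fun n => ee (f n)) (fun n => (norm_ee _).le) M H
    (B := fun r => if r = 0 then M else C * (2 * M * x⁻¹ ^ 2 + (M : ℝ) ^ q * lam ^ (-p) *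
      (r : ℝ) ^ (-p))) (fun r hr hrH => by
      have hr0 : (0 : ℝ) < r := by exact_mod_cast hr
      have hr1 : (r : ℝ) ≤ H := by exact_mod_cast hrH.le
      have a1 := hT (fwdDiff r f) (M - r) (r * lam) (by positivity) (fun n hn => by
        rw [iter_shift]
        constructor
        · simpa using card_nsmul_le_sum (range r) _ _ fun j hj =>
            (hb (n + j) (by rw [mem_range] at hj; omega)).1
        · refine (sum_le_card_nsmul (range r) _ _ fun j hj =>
            (hb (n + j) (by rw [mem_range] at hj; omega)).2).trans_eq ?_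
          simp; ring)
      simp only [conj_ee, ← ee_add, ← sub_eq_add_neg, if_neg hr.ne']
      refine a1.trans ?_
      have a2 : ((M - r : ℕ) : ℝ) ≤ M := by exact_mod_cast Nat.sub_le M r
      have a3 : (r * lam) ^ p ≤ 2 * x⁻¹ ^ 2 := by
        calc _ ≤ (2 * (x ^ 2 * lam)) ^ p := by
              rw [← mul_assoc]; gcongr; linarith
          _ = 2 ^ p * x⁻¹ ^ 2 := by rw [Real.mul_rpow (by norm_num) (by positivity), e1]
          _ ≤ 2 ^ (1 : ℝ) * x⁻¹ ^ 2 := by gcongr <;> linarith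
          _ = _ := by rw [Real.rpow_one]
      rw [Real.mul_rpow (z := -p) hr0.le hl.le]
      calc _ ≤ C * (M * (2 * x⁻¹ ^ 2) + (M : ℝ) ^ q * ((r : ℝ) ^ (-p) * lam ^ (-p))) := by gcongr
        _ = _ := by ring) (if_pos rfl) (fun r => by split_ifs <;> positivity)
  obtain ⟨G, hG⟩ : ∃ G, H = G + 1 := ⟨H - 1, by
    have : 0 < H := by exact_mod_cast H0
    omega⟩
  have e2 : lam ^ (-p) * (H : ℝ) ^ (1 - p) ≤ H * x ^ 2 := by
    rw [sub_eq_add_neg, Real.rpow_add H0, Real.rpow_one, mul_left_comm, mul_comm (lam ^ (-p)),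
      ← Real.mul_rpow H0.le hl.le]
    gcongr
    calc _ ≤ (x ^ 2 * lam) ^ (-p) :=
          Real.rpow_le_rpow_of_nonpos (by positivity) (by gcongr) (by linarith)
      _ = _ := by rw [Real.rpow_neg (by positivity), e1, inv_pow, inv_inv]
  have hsum : ∑ r ∈ range H, (if r = 0 then (M : ℝ) else
      C * (2 * M * x⁻¹ ^ 2 + (M : ℝ) ^ q * lam ^ (-p) * (r : ℝ) ^ (-p))) ≤
      H * (C * (3 * M * x⁻¹ ^ 2 + 2 * (M : ℝ) ^ q * x ^ 2)) := by
    have b1 := sum_rpow_neg_le hp0.le hp G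
    have b2 : (G : ℝ) ≤ H := by rw [hG]; push_cast; linarith
    have b3 : (G : ℝ) ^ (1 - p) ≤ (H : ℝ) ^ (1 - p) := by gcongr; linarith
    have b4 : (M : ℝ) ≤ H * (C * (M * x⁻¹ ^ 2)) := by
      have c1 : 1 ≤ H * x⁻¹ ^ 2 := by rw [inv_pow, ← div_eq_mul_inv, one_le_div (by positivity)]; exact H1
      have c2 : 1 * 1 ≤ C * (H * x⁻¹ ^ 2) := by gcongr
      nlinarith
    conv_lhs => rw [hG, sum_range_succ']
    simp only [Nat.succ_ne_zero, if_false, if_true, ← mul_sum]
    have b5 : ∑ r ∈ range G, ((r + 1 : ℕ) : ℝ) ^ (-p) ≤ 2 * (H : ℝ) ^ (1 - p) := by linarith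
    have b6 : ∑ r ∈ range G, (2 * M * x⁻¹ ^ 2 + (M : ℝ) ^ q * lam ^ (-p) *
        ((r + 1 : ℕ) : ℝ) ^ (-p)) = G * (2 * M * x⁻¹ ^ 2) + (M : ℝ) ^ q * lam ^ (-p) *
          ∑ r ∈ range G, ((r + 1 : ℕ) : ℝ) ^ (-p) := by
      rw [sum_add_distrib, sum_const, card_range, nsmul_eq_mul, ← mul_sum]
    rw [b6]
    calc _ ≤ C * (H * (2 * M * x⁻¹ ^ 2) + (M : ℝ) ^ q * lam ^ (-p) * (2 * (H : ℝ) ^ (1 - p))) +
          H * (C * (M * x⁻¹ ^ 2)) := by gcongr
      _ = C * (H * (2 * M * x⁻¹ ^ 2) + (M : ℝ) ^ q * (2 * (lam ^ (-p) * (H : ℝ) ^ (1 - p)))) +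
          H * (C * (M * x⁻¹ ^ 2)) := by ring
      _ ≤ C * (H * (2 * M * x⁻¹ ^ 2) + (M : ℝ) ^ q * (2 * (H * x ^ 2))) +
          H * (C * (M * x⁻¹ ^ 2)) := by gcongr
      _ = _ := by ring
  have h5 : ‖∑ n ∈ range M, ee (f n)‖ ^ 2 ≤
      4 * C * (3 * (M * x⁻¹) ^ 2 + 2 * (y * x) ^ 2) := by
    apply le_of_mul_le_mul_left _ (pow_pos H0 2)
    calc _ ≤ _ := hw
      _ ≤ (M + M) * (2 * H * (H * (C * (3 * M * x⁻¹ ^ 2 + 2 * (M : ℝ) ^ q * x ^ 2)))) := by gcongr
      _ = _ := by rw [mul_pow y, hy2]; ring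
  apply le_of_pow_le_pow_left₀ two_ne_zero (by positivity)
  refine h5.trans ?_
  have h6 : 3 * (M * x⁻¹) ^ 2 + 2 * (y * x) ^ 2 ≤ 16 * (M * x⁻¹ + y * x) ^ 2 := by
    nlinarith [mul_nonneg t1 t2]
  calc _ ≤ 4 * (C * C) * (16 * (M * x⁻¹ + y * x) ^ 2) := by gcongr; nlinarith
    _ = _ := by ring

end Pool.Agent.Lib.helper44
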